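import Mathlib

set_option autoImplicit false

namespace Pool.Agent.Results.MP_3e7e8f_al.OrderTwo

/-- A finitely generated abelian periodic group is finite. -/
theorem fg_abelian (K : Type) [Group K] [Group.FG K] (hcomm : ∀ x y : K, x * y = y * x)
    (htor : ∀ x : K, IsOfFinOrder x) : Finite K := by
  let C : CommGroup K := { (inferInstance : Group K) with mul_comm := hcomm }
  exact @CommGroup.finite_of_fg_isMulTorsion _ C inferInstance htor

/-- Passage from the abelian periodic subgroup `F` to `F⟨a⟩`. -/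
theorem lf_of_abelian {G : Type} [Group G] (F : Subgroup G) (a : G) (p : ℕ) (hp : 0 < p)
    (hFn : F.Normal) (ha : a ^ p = 1)
    (hG : ∀ g : G, ∃ f ∈ F, ∃ k : ℕ, g = f * a ^ k)
    (hcomm : ∀ x ∈ F, ∀ y ∈ F, x * y = y * x) (htor : ∀ x ∈ F, IsOfFinOrder x)
    (s : Finset G) : ((Subgroup.closure (s : Set G) : Subgroup G) : Set G).Finite := by
  have hfi : F.FiniteIndex := by
    have hsurj : Function.Surjective (fun k : Fin p => (QuotientGroup.mk' F) (a ^ (k : ℕ))) := by
      intro q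
      obtain ⟨g, rfl⟩ := QuotientGroup.mk'_surjective F q
      obtain ⟨f, hf, k, rfl⟩ := hG g
      refine ⟨⟨k % p, Nat.mod_lt _ hp⟩, ?_⟩
      have h1 : (QuotientGroup.mk' F) f = 1 := (QuotientGroup.eq_one_iff f).mpr hf
      have h2 : a ^ (k % p) = a ^ k := by
        conv_rhs => rw [← Nat.mod_add_div k p, pow_add, pow_mul, ha, one_pow, mul_one]
      simp only [map_mul, h1, one_mul, h2]
    have hfin : Finite (G ⧸ F) := Finite.of_surjective _ hsurj
    exact Subgroup.finiteIndex_of_finite_quotient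
  let H : Subgroup G := Subgroup.closure (s : Set G)
  have hHfg : Group.FG H := (Group.fg_iff_subgroup_fg _).mpr ⟨s, rfl⟩
  have hKfi : (F.subgroupOf H).FiniteIndex := inferInstance
  have hKfg : Group.FG (F.subgroupOf H) := inferInstance
  have hK : Finite (F.subgroupOf H) := by
    refine fg_abelian _ (fun x y => ?_) (fun x => ?_)
    · exact Subtype.ext (Subtype.ext (hcomm _ x.2 _ y.2))
    · have h1 := htor _ x.2
      rw [isOfFinOrder_iff_pow_eq_one] at h1 ⊢
      obtain ⟨n, hn, h2⟩ := h1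
      exact ⟨n, hn, Subtype.ext (Subtype.ext h2)⟩
  have hH : Finite H := by
    have hq : Finite (H ⧸ (F.subgroupOf H)) := inferInstance
    exact Finite.of_equiv _ (Subgroup.groupEquivQuotientProdSubgroup (s := F.subgroupOf H)).symm
  exact Set.toFinite _

/-- **Main result.** Let `G = F⟨a⟩` be a binary finite group, `F` normal, `a` of prime order `p`
acting on `F` without nontrivial fixed points. (1) For `x ∈ F` the element `x a` is conjugate to `a`
under `F` and `(x a) ^ p = 1`. (2) If `F` is abelian then `G` is locally finite. (3) If `p = 2`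
then `a` inverts `F`, `F` is abelian and `G` is locally finite. -/
theorem result :
    ∀ (G : Type) [Group G] (F : Subgroup G) (a : G) (p : ℕ),
      p.Prime →
      F.Normal →
      orderOf a = p →
      a ∉ F →
      (∀ g : G, ∃ f ∈ F, ∃ k : ℕ, g = f * a ^ k) →
      (∀ f ∈ F, a * f * a⁻¹ = f → f = 1) →
      (∀ x y : G, ((Subgroup.closure ({x, y} : Set G) : Subgroup G) : Set G).Finite) →
      (∀ x ∈ F, (∃ y ∈ F, x * a = y * a * y⁻¹) ∧ (x * a) ^ p = 1) ∧
      ((∀ x ∈ F, ∀ y ∈ F, x * y = y * x) →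
        ∀ s : Finset G, ((Subgroup.closure (s : Set G) : Subgroup G) : Set G).Finite) ∧
      (p = 2 → (∀ x ∈ F, a * x * a⁻¹ = x⁻¹) ∧ (∀ x ∈ F, ∀ y ∈ F, x * y = y * x) ∧
        ∀ s : Finset G, ((Subgroup.closure (s : Set G) : Subgroup G) : Set G).Finite) := by
  intro G _ F a p hp hFn ha _ hG hfix hbin
  have htor : ∀ x ∈ F, IsOfFinOrder x := by
    intro x _
    have hf : Finite (Subgroup.closure ({x, x} : Set G)) := hbin x x
    have h4 := isOfFinOrder_of_finite
      (⟨x, Subgroup.subset_closure (by simp)⟩ : Subgroup.closure ({x, x} : Set G))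
    rw [isOfFinOrder_iff_pow_eq_one] at h4 ⊢
    obtain ⟨n, hn, h5⟩ := h4
    exact ⟨n, hn, congrArg Subtype.val h5⟩
  have hap : a ^ p = 1 := by rw [← ha]; exact pow_orderOf_eq_one a
  have h1 : ∀ x ∈ F, (∃ y ∈ F, x * a = y * a * y⁻¹) ∧ (x * a) ^ p = 1 := by
    intro x hx
    let H : Subgroup G := Subgroup.closure ({x, a} : Set G)
    have hH : Finite H := hbin x a
    have hxH : x ∈ H := Subgroup.subset_closure (by simp)
    have haH : a ∈ H := Subgroup.subset_closure (by simp)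
    let K : Subgroup G := H ⊓ F
    have hK : Finite K := Finite.of_injective (fun z : K => (⟨z, z.2.1⟩ : H)) (fun u v h =>
      Subtype.ext (congrArg (fun w : H => (w : G)) h))
    let f : K → K := fun y => ⟨y * (a * (y : G)⁻¹ * a⁻¹),
      ⟨H.mul_mem y.2.1 (H.mul_mem (H.mul_mem haH (H.inv_mem y.2.1)) (H.inv_mem haH)),
        F.mul_mem y.2.2 (hFn.conj_mem _ (F.inv_mem y.2.2) a)⟩⟩
    have hf : Function.Injective f := by
      intro u v huv
      have h2 : (u : G) * (a * (u : G)⁻¹ * a⁻¹) = (v : G) * (a * (v : G)⁻¹ * a⁻¹) :=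
        congrArg Subtype.val huv
      have h3 : a * ((v : G)⁻¹ * u)⁻¹ * a⁻¹ = ((v : G)⁻¹ * u)⁻¹ := by
        have h4 : (v : G)⁻¹ * ((u : G) * (a * (u : G)⁻¹ * a⁻¹)) =
            (v : G)⁻¹ * ((v : G) * (a * (v : G)⁻¹ * a⁻¹)) := by rw [h2]
        have h5 : a * ((v : G)⁻¹ * u)⁻¹ * a⁻¹ =
            ((v : G)⁻¹ * u)⁻¹ * ((v : G)⁻¹ * ((u : G) * (a * (u : G)⁻¹ * a⁻¹))) *
              (a * (v : G) * a⁻¹) := by group
        have h6 : ((v : G)⁻¹ * u)⁻¹ * ((v : G)⁻¹ * ((v : G) * (a * (v : G)⁻¹ * a⁻¹))) *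
              (a * (v : G) * a⁻¹) = ((v : G)⁻¹ * u)⁻¹ := by group
        rw [h5, h4, h6]
      have h7 := hfix _ (F.inv_mem (F.mul_mem (F.inv_mem v.2.2) u.2.2)) h3
      rw [inv_eq_one, inv_mul_eq_one] at h7
      exact Subtype.ext h7.symm
    obtain ⟨y, hy⟩ := (Finite.injective_iff_surjective.mp hf) ⟨x, ⟨hxH, hx⟩⟩
    have h8 : (y : G) * (a * (y : G)⁻¹ * a⁻¹) = x := congrArg Subtype.val hy
    have h9 : x * a = y * a * (y : G)⁻¹ := by
      rw [← h8]
      group
    refine ⟨⟨y, y.2.2, h9⟩, ?_⟩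
    rw [h9, conj_pow, hap, mul_one, mul_inv_cancel]
  refine ⟨h1, fun hc s => lf_of_abelian F a p hp.pos hFn hap hG hc htor s, ?_⟩
  rintro rfl
  have haa : a * a = 1 := by rwa [pow_two] at hap
  have hinv : a⁻¹ = a := inv_eq_of_mul_eq_one_left haa
  have h3 : ∀ x ∈ F, a * x * a⁻¹ = x⁻¹ := by
    intro x hx
    have h4 := (h1 x hx).2
    rw [pow_two] at h4
    have h5 : x * (a * x * a) = 1 := by
      rw [← h4]
      group
    rw [hinv]
    exact (inv_eq_of_mul_eq_one_right h5).symm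
  have h6 : ∀ x ∈ F, ∀ y ∈ F, x * y = y * x := by
    intro x hx y hy
    have e1 := h3 (x * y) (F.mul_mem hx hy)
    have e2 : a * (x * y) * a⁻¹ = (a * x * a⁻¹) * (a * y * a⁻¹) := by group
    rw [e2, h3 x hx, h3 y hy, mul_inv_rev] at e1
    have e3 := congrArg (fun g => g⁻¹) e1
    simp only [mul_inv_rev, inv_inv] at e3
    exact e3.symm
  exact ⟨h3, h6, fun s => lf_of_abelian F a 2 hp.pos hFn hap hG h6 htor s⟩

end Pool.Agent.Results.MP_3e7e8f_al.OrderTwo
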